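import Pool.Agent.Q265.NF.C

/-! # Powers are close to the cusps at finitely many places -/

set_option autoImplicit false

open NumberField Height Function IsDedekindDomain

namespace Q265.NF

open Q241.AK

variable {K : Type*} [Field K] [NumberField K]

/-! ### the archimedean places -/

lemma arch_point {ι : Type*} [Finite ι] {δ : ℝ} (hδ : 0 < δ) (u : ι → ℂ) (hu : ∀ i, ‖u i‖ ≤ 1) :
    ∃ m : ℕ, 1 ≤ m ∧ ∀ i, ‖u i ^ m‖ < δ ∨ ‖u i ^ m - 1‖ < δ := by
  classical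
  have := Fintype.ofFinite ι
  have hev : ∀ᶠ n : ℕ in Filter.atTop, ∀ i, ‖u i‖ < 1 → ‖u i‖ ^ n < δ := by
    rw [Filter.eventually_all]
    intro i
    by_cases hi : ‖u i‖ < 1
    · have h1 := tendsto_pow_atTop_nhds_zero_of_lt_one (norm_nonneg (u i)) hi
      filter_upwards [h1.eventually (gt_mem_nhds hδ)] with n hn _ using hn
    · exact Filter.Eventually.of_forall fun n h => absurd h hi
  obtain ⟨N0, hN0⟩ := Filter.eventually_atTop.1 hev
  have hmem : ∀ n : ℕ, (fun i => u i ^ n) ∈ Metric.closedBall (0 : ι → ℂ) 1 := by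
    intro n
    rw [mem_closedBall_zero_iff, pi_norm_le_iff_of_nonneg zero_le_one]
    intro i
    rw [norm_pow]
    exact pow_le_one₀ (norm_nonneg _) (hu i)
  obtain ⟨a, -, φ, hφ, hlim⟩ :=
    (isCompact_closedBall (0 : ι → ℂ) 1).tendsto_subseq hmem
  have hc := hlim.cauchySeq
  rw [Metric.cauchySeq_iff] at hc
  obtain ⟨N, hN⟩ := hc δ hδ
  have h1 := hN N le_rfl (N + (N0 + 1)) (by omega)
  obtain ⟨m, hm⟩ : ∃ m : ℕ, m = φ (N + (N0 + 1)) - φ N := ⟨_, rfl⟩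
  have hφN : N0 + 1 + φ N ≤ φ (N + (N0 + 1)) := by
    have : ∀ j : ℕ, j + φ N ≤ φ (N + j) := by
      intro j
      induction j with
      | zero => simp
      | succ j ih =>
        have := hφ (show N + j < N + (j + 1) by omega)
        omega
    exact this _
  have hmN : N0 ≤ m := by omega
  refine ⟨m, by omega, fun i => ?_⟩
  rcases lt_or_eq_of_le (hu i) with h2 | h2
  · left
    rw [norm_pow]
    exact hN0 m hmN i h2
  · right
    have h3 : dist (u i ^ φ N) (u i ^ φ (N + (N0 + 1))) < δ :=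
      lt_of_le_of_lt (dist_le_pi_dist (fun i => u i ^ φ N)
        (fun i => u i ^ φ (N + (N0 + 1))) i) h1
    have h4 : φ (N + (N0 + 1)) = φ N + m := by omega
    rw [h4, dist_comm, dist_eq_norm] at h3
    have h5 : u i ^ (φ N + m) - u i ^ φ N = u i ^ φ N * (u i ^ m - 1) := by ring
    rw [h5, norm_mul, norm_pow, h2, one_pow, one_mul] at h3
    exact h3

theorem arch_close {ι : Type*} [Finite ι] {δ : ℝ} (hδ : 0 < δ) : ∃ M : ℕ, ∀ u : ι → ℂ,
    (∀ i, ‖u i‖ ≤ 1) → ∃ m : ℕ, 1 ≤ m ∧ m ≤ M ∧ ∀ i, ‖u i ^ m‖ < δ ∨ ‖u i ^ m - 1‖ < δ := by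
  classical
  have := Fintype.ofFinite ι
  obtain ⟨U, hU⟩ : ∃ U : ℕ → Set (ι → ℂ), U = fun m =>
      {u | 1 ≤ m ∧ ∀ i, ‖u i ^ m‖ < δ ∨ ‖u i ^ m - 1‖ < δ} := ⟨_, rfl⟩
  have hopen : ∀ m, IsOpen (U m) := by
    intro m
    have : U m = {u : ι → ℂ | 1 ≤ m} ∩
        ⋂ i, ({u : ι → ℂ | ‖u i ^ m‖ < δ} ∪ {u : ι → ℂ | ‖u i ^ m - 1‖ < δ}) := by
      ext u
      rw [hU]
      simp only [Set.mem_ofPred_eq, Set.mem_inter_iff, Set.mem_iInter, Set.mem_union]
    rw [this]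
    refine isOpen_const.inter (isOpen_iInter_of_finite fun i => IsOpen.union ?_ ?_)
    · exact isOpen_lt (by fun_prop) continuous_const
    · exact isOpen_lt (by fun_prop) continuous_const
  have hcov : Metric.closedBall (0 : ι → ℂ) 1 ⊆ ⋃ m, U m := by
    intro u hu
    rw [mem_closedBall_zero_iff, pi_norm_le_iff_of_nonneg zero_le_one] at hu
    obtain ⟨m, h1, h2⟩ := arch_point hδ u hu
    rw [Set.mem_iUnion]
    exact ⟨m, by rw [hU]; exact ⟨h1, h2⟩⟩
  obtain ⟨t, ht⟩ := (isCompact_closedBall (0 : ι → ℂ) 1).elim_finite_subcover U hopen hcov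
  refine ⟨t.sup id, fun u hu => ?_⟩
  have hu' : u ∈ Metric.closedBall (0 : ι → ℂ) 1 := by
    rw [mem_closedBall_zero_iff, pi_norm_le_iff_of_nonneg zero_le_one]
    exact hu
  have := ht hu'
  rw [Set.mem_iUnion₂] at this
  obtain ⟨m, hm, hm2⟩ := this
  rw [hU] at hm2
  exact ⟨m, hm2.1, Finset.le_sup (f := id) hm, hm2.2⟩

/-! ### the finite places -/

lemma int_one {v : FinitePlace K} {r : 𝓞 K} : v (r : K) = 1 ↔ r ∉ v.maximalIdeal.asIdeal := by
  rw [← FinitePlace.norm_embedding_eq]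
  exact FinitePlace.norm_eq_one_iff_notMem K v.maximalIdeal r

lemma small_of_mem {v : FinitePlace K} {n : ℕ} {r : 𝓞 K} (hr : r ∈ v.maximalIdeal.asIdeal ^ n) :
    v (r : K) ≤ (N v)⁻¹ ^ n := by
  have hN := one_lt_N v
  have hN0 : 0 < N v := by linarith
  by_cases h0 : r = 0
  · rw [h0]
    simp only [map_zero]
    positivity
  · have h := FinitePlace.apply_mul_absNorm_pow_eq_one v h0
    have hfin : FiniteMultiplicity v.maximalIdeal.asIdeal (Ideal.span {r}) := by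
      refine FiniteMultiplicity.of_prime_left v.maximalIdeal.prime ?_
      rwa [Ne, Ideal.zero_eq_bot, Ideal.span_singleton_eq_bot]
    have hle : n ≤ multiplicity v.maximalIdeal.asIdeal (Ideal.span {r}) := by
      refine hfin.le_multiplicity_of_pow_dvd ?_
      rw [Ideal.dvd_span_singleton]
      exact hr
    have h2 : v (r : K) = (N v)⁻¹ ^ multiplicity v.maximalIdeal.asIdeal (Ideal.span {r}) := by
      rw [inv_pow]
      exact eq_inv_of_mul_eq_one_left h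
    rw [h2]
    exact pow_le_pow_of_le_one (by positivity) (inv_le_one_of_one_le₀ hN.le) hle

lemma int_pow (P : HeightOneSpectrum (𝓞 K)) (n : ℕ) : ∃ L : ℕ, 1 ≤ L ∧ ∀ r : 𝓞 K,
    r ∉ P.asIdeal → r ^ L - 1 ∈ P.asIdeal ^ n := by
  classical
  have hne : P.asIdeal ^ n ≠ ⊥ := pow_ne_zero n P.ne_bot
  have hfin : Finite (𝓞 K ⧸ P.asIdeal ^ n) := Ideal.finiteQuotientOfFreeOfNeBot _ hne
  refine ⟨Nat.card (𝓞 K ⧸ P.asIdeal ^ n)ˣ, Nat.card_pos, fun r hr => ?_⟩
  have hsup : Ideal.span {r} ⊔ P.asIdeal = ⊤ := by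
    refine (Ideal.isMaximal_def.1 P.isMaximal).2 _ (lt_of_le_of_ne le_sup_right fun h => hr ?_)
    rw [h]
    exact Ideal.mem_sup_left (Ideal.mem_span_singleton_self r)
  have hcop : IsCoprime (Ideal.span {r}) (P.asIdeal ^ n) :=
    IsCoprime.pow_right (Ideal.isCoprime_iff_sup_eq.2 hsup)
  obtain ⟨i, hi, j, hj, hij⟩ := Ideal.isCoprime_iff_exists.1 hcop
  obtain ⟨a, rfl⟩ := Ideal.mem_span_singleton'.1 hi
  have hu : IsUnit (Ideal.Quotient.mk (P.asIdeal ^ n) r) := by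
    refine IsUnit.of_mul_eq_one (Ideal.Quotient.mk (P.asIdeal ^ n) a) ?_
    rw [← map_mul, ← map_one (Ideal.Quotient.mk (P.asIdeal ^ n)), Ideal.Quotient.eq]
    have : r * a - 1 = -j := by
      rw [← hij]
      ring
    rw [this]
    exact neg_mem hj
  obtain ⟨y, hy⟩ := hu
  have h1 : y ^ Nat.card (𝓞 K ⧸ P.asIdeal ^ n)ˣ = 1 := pow_card_eq_one'
  rw [← Ideal.Quotient.eq_zero_iff_mem, map_sub, map_pow, map_one, ← hy, ← Units.val_pow_eq_pow_val,
    h1, Units.val_one, sub_self]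

theorem unit_close (v : FinitePlace K) {δ : ℝ} (hδ : 0 < δ) : ∃ L : ℕ, 1 ≤ L ∧ ∀ t : K, v t = 1 →
    ∀ j : ℕ, v ((t ^ L) ^ j - 1) < δ := by
  have hN := one_lt_N v
  have hN0 : 0 < N v := by linarith
  obtain ⟨n, hn⟩ := exists_pow_lt_of_lt_one hδ (inv_lt_one_of_one_lt₀ hN)
  obtain ⟨L, hL, hLr⟩ := int_pow v.maximalIdeal n
  refine ⟨L, hL, fun t ht j => ?_⟩
  have key : ∀ a b : 𝓞 K, t * (a : K) = b → a ∉ v.maximalIdeal.asIdeal →
      b ∉ v.maximalIdeal.asIdeal → v (t ^ L - 1) ≤ (N v)⁻¹ ^ n := by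
    intro a b hab ha hb
    have h1 := hLr a ha
    have h2 := hLr b hb
    have h3 : b ^ L - a ^ L ∈ v.maximalIdeal.asIdeal ^ n := by
      have := sub_mem h2 h1
      rwa [sub_sub_sub_cancel_right] at this
    have h4 := small_of_mem h3
    have h5 : v (a : K) = 1 := int_one.2 ha
    have h6 : (t ^ L - 1) * (algebraMap (𝓞 K) K a) ^ L = algebraMap (𝓞 K) K (b ^ L - a ^ L) := by
      have hab' : t * algebraMap (𝓞 K) K a = algebraMap (𝓞 K) K b := hab
      rw [map_sub, map_pow, map_pow, ← hab']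
      ring
    have h7 : v ((t ^ L - 1) * (algebraMap (𝓞 K) K a) ^ L) ≤ (N v)⁻¹ ^ n := by
      rw [h6]
      exact h4
    have h8 : v (algebraMap (𝓞 K) K a) = 1 := h5
    rw [map_mul, map_pow, h8, one_pow, mul_one] at h7
    exact h7
  have hle : v (t ^ L - 1) ≤ (N v)⁻¹ ^ n := by
    obtain ⟨a, ⟨d, hd⟩, h | h⟩ :=
      HeightOneSpectrum.exists_primeCompl_mul_eq_or_mul_eq (K := K) v.maximalIdeal t
    · have hd' : d ∉ v.maximalIdeal.asIdeal := hd
      refine key d a h hd' ?_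
      rw [← int_one]
      have h1 : v (d : K) = 1 := int_one.2 hd'
      have h2 : (a : K) = t * (d : K) := h.symm
      rw [h2, map_mul, ht, h1, one_mul]
    · have hd' : d ∉ v.maximalIdeal.asIdeal := hd
      refine key a d h ?_ hd'
      rw [← int_one]
      have h1 : v (d : K) = 1 := int_one.2 hd'
      have h2 : (d : K) = t * (a : K) := h.symm
      rw [h2, map_mul, ht, one_mul] at h1
      exact h1
  have hlt : v (t ^ L - 1) < δ := lt_of_le_of_lt hle hn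
  rcases Nat.eq_zero_or_pos j with h0 | h0
  · rw [h0, pow_zero, sub_self, map_zero]
    exact hδ
  · have h1 : (t ^ L) ^ j - 1 = (∑ i ∈ Finset.range j, (t ^ L) ^ i * 1 ^ (j - 1 - i)) *
        (t ^ L - 1) := by
      have := geom_sum₂_mul (t ^ L) 1 j
      rw [one_pow] at this
      exact this.symm
    have h2 := fgeom_le v (t ^ L) 1 1 (by rw [map_pow, ht, one_pow]) (by rw [map_one]) j h0
    rw [one_pow] at h2
    rw [h1, map_mul]
    exact lt_of_le_of_lt (mul_le_of_le_one_left (by positivity) h2) hlt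

/-! ### the quadratic maps near the cusps -/

omit [NumberField K] in
/-- near a cusp -/
def Near (η : ℝ) (a : AbsoluteValue K ℝ) (x : Fin 3 → K) : Prop :=
  a (x 0) < η * a (x 2) ∨ a (x 2) < η * a (x 0) ∨ a (x 1) < η * a (x 2) ∨ a (x 1) < η * a (x 0)

omit [NumberField K] in
lemma Near.mono {η η' : ℝ} (h : η ≤ η') {a : AbsoluteValue K ℝ} {x : Fin 3 → K}
    (hx : Near η a x) : Near η' a x := by
  rcases hx with h1 | h1 | h1 | h1
  · exact Or.inl (h1.trans_le (mul_le_mul_of_nonneg_right h (a.nonneg _)))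
  · exact Or.inr (Or.inl (h1.trans_le (mul_le_mul_of_nonneg_right h (a.nonneg _))))
  · exact Or.inr (Or.inr (Or.inl (h1.trans_le (mul_le_mul_of_nonneg_right h (a.nonneg _)))))
  · exact Or.inr (Or.inr (Or.inr (h1.trans_le (mul_le_mul_of_nonneg_right h (a.nonneg _)))))

omit [NumberField K] in
lemma abs2 [CharZero K] (a : AbsoluteValue K ℝ) : a 2 ≤ 2 ∧ 0 < a 2 := by
  constructor
  · have := a.add_le 1 1
    rw [map_one, one_add_one_eq_two, one_add_one_eq_two] at this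
    exact this
  · exact a.pos (by norm_num)

omit [NumberField K] in
/-- all three cusps go to `0` -/
theorem cusps [CharZero K] (a : AbsoluteValue K ℝ) {δ : ℝ} (hδ : 0 < δ) : ∃ η : ℝ, 0 < η ∧
    ∀ x : Fin 3 → K, x 0 + x 1 + x 2 = 0 → (∀ i, x i ≠ 0) → Near η a x →
      a (qq2 (qq1 x) 0) < δ * a (qq2 (qq1 x) 2) := by
  obtain ⟨h2, h2p⟩ := abs2 a
  obtain ⟨q, hq⟩ : ∃ q : ℝ, q = a 2 := ⟨_, rfl⟩
  rw [← hq] at h2 h2p
  obtain ⟨ρ, hρ⟩ : ∃ ρ : ℝ, ρ = min (1 / 2) (δ / 32) := ⟨_, rfl⟩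
  have hρ0 : 0 < ρ := by rw [hρ]; positivity
  have hρ1 : ρ ≤ 1 / 2 := by rw [hρ]; exact min_le_left _ _
  have hρ2 : ρ ≤ δ / 32 := by rw [hρ]; exact min_le_right _ _
  obtain ⟨η, hη⟩ : ∃ η : ℝ, η = min (ρ / 16) (q ^ 2 * ρ / 2) := ⟨_, rfl⟩
  have hη0 : 0 < η := by rw [hη]; positivity
  have hη1 : η ≤ ρ / 16 := by rw [hη]; exact min_le_left _ _
  have hη2 : η ≤ q ^ 2 * ρ / 2 := by rw [hη]; exact min_le_right _ _
  refine ⟨η, hη0, fun x hs hx0 hnear => ?_⟩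
  obtain ⟨A, hA⟩ : ∃ A : ℝ, A = a (x 0) := ⟨_, rfl⟩
  obtain ⟨B, hB⟩ : ∃ B : ℝ, B = a (x 1) := ⟨_, rfl⟩
  obtain ⟨C, hC⟩ : ∃ C : ℝ, C = a (x 2) := ⟨_, rfl⟩
  have hA0 : 0 < A := by rw [hA]; exact a.pos (hx0 0)
  have hB0 : 0 < B := by rw [hB]; exact a.pos (hx0 1)
  have hC0 : 0 < C := by rw [hC]; exact a.pos (hx0 2)
  have tri : ∀ y z w : K, y + z + w = 0 → a y ≤ a z + a w := by
    intro y z w h
    have : y = -(z + w) := by linear_combination h
    rw [this, a.map_neg]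
    exact a.add_le z w
  have tA : A ≤ B + C := by rw [hA, hB, hC]; exact tri _ _ _ hs
  have tB : B ≤ A + C := by rw [hA, hB, hC]; exact tri _ _ _ (by linear_combination hs)
  have tC : C ≤ A + B := by rw [hA, hB, hC]; exact tri _ _ _ (by linear_combination hs)
  obtain ⟨s, hsd⟩ : ∃ s : ℝ, s = a (4 * x 0 * x 1) := ⟨_, rfl⟩
  obtain ⟨r, hrd⟩ : ∃ r : ℝ, r = a (x 2 ^ 2) := ⟨_, rfl⟩
  have hsv : s = q ^ 2 * A * B := by
    rw [hsd, hA, hB, hq, map_mul, map_mul, show (4 : K) = 2 ^ 2 by norm_num, map_pow]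
  have hrv : r = C ^ 2 := by rw [hrd, hC, map_pow]
  have hq4 : q ^ 2 ≤ 4 := by nlinarith
  have hq0 : 0 < q ^ 2 := by positivity
  -- the values of the two quadratic maps
  have e0 : qq2 (qq1 x) 0 = 4 * (4 * x 0 * x 1) * (-x 2 ^ 2) := rfl
  have e2 : qq2 (qq1 x) 2 = (4 * x 0 * x 1 - -x 2 ^ 2) ^ 2 := rfl
  have v0 : a (qq2 (qq1 x) 0) = q ^ 2 * s * r := by
    rw [e0, map_mul, map_mul, a.map_neg, ← hsd, ← hrd, show (4 : K) = 2 ^ 2 by norm_num, map_pow, hq]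
  have hs0 : 0 < s := by rw [hsv]; positivity
  have hr0 : 0 < r := by rw [hrv]; positivity
  have d1 : s - r ≤ a (4 * x 0 * x 1 - -x 2 ^ 2) := by
    have := tri (4 * x 0 * x 1) (-(4 * x 0 * x 1 - -x 2 ^ 2)) (x 2 ^ 2) (by ring)
    rw [a.map_neg, ← hsd, ← hrd] at this
    linarith
  have d2 : r - s ≤ a (4 * x 0 * x 1 - -x 2 ^ 2) := by
    have := tri (-x 2 ^ 2) (4 * x 0 * x 1 - -x 2 ^ 2) (-(4 * x 0 * x 1)) (by ring)
    rw [a.map_neg, a.map_neg, ← hsd, ← hrd] at this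
    linarith
  rw [v0, e2, map_pow]
  obtain ⟨T, hT⟩ : ∃ T : ℝ, T = a (4 * x 0 * x 1 - -x 2 ^ 2) := ⟨_, rfl⟩
  rw [← hT] at d1 d2 ⊢
  have hT0 : 0 ≤ T := by rw [hT]; exact a.nonneg _
  have fin1 : s ≤ ρ * r → q ^ 2 * s * r < δ * T ^ 2 := by
    intro h
    have h3 : r / 2 ≤ T := by nlinarith
    have h4 : (r / 2) ^ 2 ≤ T ^ 2 := pow_le_pow_left₀ (by positivity) h3 2
    calc q ^ 2 * s * r ≤ 4 * (ρ * r) * r := by gcongr
      _ ≤ 4 * (δ / 32 * r) * r := by gcongr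
      _ = δ * (r ^ 2 / 8) := by ring
      _ < δ * (r / 2) ^ 2 := by
        apply mul_lt_mul_of_pos_left _ hδ
        nlinarith [pow_pos hr0 2]
      _ ≤ δ * T ^ 2 := by gcongr
  have fin2 : r ≤ ρ * s → q ^ 2 * s * r < δ * T ^ 2 := by
    intro h
    have h3 : s / 2 ≤ T := by nlinarith
    have h4 : (s / 2) ^ 2 ≤ T ^ 2 := pow_le_pow_left₀ (by positivity) h3 2
    calc q ^ 2 * s * r ≤ 4 * s * (ρ * s) := by gcongr
      _ ≤ 4 * s * (δ / 32 * s) := by gcongr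
      _ = δ * (s ^ 2 / 8) := by ring
      _ < δ * (s / 2) ^ 2 := by
        apply mul_lt_mul_of_pos_left _ hδ
        nlinarith [pow_pos hs0 2]
      _ ≤ δ * T ^ 2 := by gcongr
  have hη3 : η ≤ 1 / 32 := by linarith
  rcases hnear with h | h | h | h
  · -- near 0
    rw [← hA, ← hC] at h
    apply fin1
    rw [hsv, hrv]
    have h5 : B ≤ 2 * C := by nlinarith
    calc q ^ 2 * A * B ≤ 4 * (η * C) * (2 * C) := by gcongr
      _ = 8 * η * C ^ 2 := by ring
      _ ≤ ρ * C ^ 2 := by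
        apply mul_le_mul_of_nonneg_right _ (by positivity)
        linarith
  · -- near infinity
    rw [← hA, ← hC] at h
    apply fin2
    rw [hsv, hrv]
    have h5 : A / 2 ≤ B := by nlinarith
    have h6 : C ≤ A := by nlinarith
    calc C ^ 2 = C * C := by ring
      _ ≤ (η * A) * A := by gcongr
      _ ≤ (q ^ 2 * ρ / 2 * A) * A := by gcongr
      _ = ρ * (q ^ 2 * A * (A / 2)) := by ring
      _ ≤ ρ * (q ^ 2 * A * B) := by gcongr
  · -- near 1
    rw [← hB, ← hC] at h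
    apply fin1
    rw [hsv, hrv]
    have h5 : A ≤ 2 * C := by nlinarith
    calc q ^ 2 * A * B ≤ 4 * (2 * C) * (η * C) := by gcongr
      _ = 8 * η * C ^ 2 := by ring
      _ ≤ ρ * C ^ 2 := by
        apply mul_le_mul_of_nonneg_right _ (by positivity)
        linarith
  · -- near 1
    rw [← hB, ← hA] at h
    apply fin1
    rw [hsv, hrv]
    have h5 : A ≤ 2 * C := by nlinarith
    have h6 : B ≤ 2 * η * C := by nlinarith
    calc q ^ 2 * A * B ≤ 4 * (2 * C) * (2 * η * C) := by gcongr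
      _ = 16 * η * C ^ 2 := by ring
      _ ≤ ρ * C ^ 2 := by
        apply mul_le_mul_of_nonneg_right _ (by positivity)
        linarith

end Q265.NF
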