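import Pool.Agent.Q241.AK.B

/-! # Maps of bounded degree between points `a + b + c = 0` over a number field -/

set_option autoImplicit false

open NumberField Height Function

namespace Q265.NF

open Q241.AK

variable {K : Type*} [Field K] [NumberField K]

lemma mf_le {x : Fin 3 → K} {v : FinitePlace K} {B : ℝ} (h : ∀ i, v (x i) ≤ B) : mf x v ≤ B :=
  ciSup_le h

omit [NumberField K] in
lemma mi_le {x : Fin 3 → K} {w : InfinitePlace K} {B : ℝ} (h : ∀ i, w (x i) ≤ B) : mi x w ≤ B :=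
  ciSup_le h

omit [NumberField K] in
lemma mi_attained (x : Fin 3 → K) (w : InfinitePlace K) : ∃ i, mi x w = w (x i) := by
  obtain ⟨i, hi⟩ := exists_eq_ciSup_of_finite (f := fun i => w (x i))
  exact ⟨i, hi.symm⟩

/-- comparison of heights place by place -/
theorem loc_le {y z : Fin 3 → K} (hy : ∀ i, y i ≠ 0) (hz : ∀ i, z i ≠ 0) {C : ℝ} (hC : 0 ≤ C)
    (h1 : ∀ v : FinitePlace K, mf y v ≤ mf z v) (h2 : ∀ w : InfinitePlace K, mi y w ≤ C * mi z w) :
    mulHeight y ≤ C ^ Module.finrank ℚ K * mulHeight z := by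
  rw [height_eq hy, height_eq hz, ← mul_assoc]
  have h3 : ∏ᶠ v : FinitePlace K, mf y v ≤ ∏ᶠ v : FinitePlace K, mf z v :=
    finprod_le_finprod (mf_fin hy) (fun v => (mf_pos hy v).le) (mf_fin hz) h1
  have h4 : ∏ w : InfinitePlace K, mi y w ^ w.mult ≤
      C ^ Module.finrank ℚ K * ∏ w : InfinitePlace K, mi z w ^ w.mult := by
    rw [← InfinitePlace.sum_mult_eq, ← Finset.prod_pow_eq_pow_sum, ← Finset.prod_mul_distrib]
    refine Finset.prod_le_prod (fun w _ => pow_nonneg (mi_pos hy w).le _) fun w _ => ?_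
    rw [← mul_pow]
    exact pow_le_pow_left₀ (mi_pos hy w).le (h2 w) _
  have h5 : 0 ≤ ∏ᶠ v : FinitePlace K, mf y v := finprod_nonneg fun v => (mf_pos hy v).le
  have h6 : 0 ≤ ∏ w : InfinitePlace K, mi z w ^ w.mult :=
    Finset.prod_nonneg fun w _ => pow_nonneg (mi_pos hz w).le _
  exact mul_le_mul h4 h3 h5 (by positivity)

lemma log_loc_le {y z : Fin 3 → K} (hy : ∀ i, y i ≠ 0) (hz : ∀ i, z i ≠ 0) {C : ℝ} (hC : 1 ≤ C)
    (h1 : ∀ v : FinitePlace K, mf y v ≤ mf z v) (h2 : ∀ w : InfinitePlace K, mi y w ≤ C * mi z w) :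
    logHeight y ≤ logHeight z + Module.finrank ℚ K * Real.log C := by
  have h := loc_le hy hz (by linarith) h1 h2
  have h3 := Real.log_le_log (mulHeight_pos y) h
  have hz := mulHeight_pos z
  rw [Real.log_mul (by positivity) hz.ne', Real.log_pow] at h3
  rw [logHeight_eq_log_mulHeight, logHeight_eq_log_mulHeight]
  linarith

/-- bounded height -/
lemma bounded {x : Fin 3 → K} (hx : ∀ i, x i ≠ 0) {C : ℝ} (hC : 1 ≤ C) {a : K} (ha : a ≠ 0)
    (h1 : ∀ (v : FinitePlace K) (i : Fin 3), v (x i) ≤ v a)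
    (h2 : ∀ (w : InfinitePlace K) (i : Fin 3), w (x i) ≤ C * w a) :
    logHeight x ≤ Module.finrank ℚ K * Real.log C := by
  obtain ⟨z, hz⟩ : ∃ z : Fin 3 → K, z = a • (1 : Fin 3 → K) := ⟨_, rfl⟩
  have hzi : ∀ i, z i = a := by intro i; rw [hz]; simp
  have hmf : ∀ v : FinitePlace K, mf z v = v a := by
    intro v
    obtain ⟨i, hi⟩ := mf_attained z v
    rw [hi, hzi]
  have hmi : ∀ w : InfinitePlace K, mi z w = w a := by
    intro w
    obtain ⟨i, hi⟩ := mi_attained z w
    rw [hi, hzi]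
  have h := log_loc_le hx (z := z) (fun i => by rw [hzi]; exact ha) hC
    (fun v => by rw [hmf]; exact mf_le (h1 v)) (fun w => by rw [hmi]; exact mi_le (h2 w))
  have h0 : logHeight z = 0 := by
    rw [hz, logHeight_smul_eq_logHeight _ ha, logHeight_one]
  linarith

/-- the primes at which a form of the coordinates is small -/
theorem defect' {x : Fin 3 → K} (hx : ∀ i, x i ≠ 0) {y : K} (hy : y ≠ 0) (n : ℕ) {C : ℝ}
    (hC : 0 ≤ C) (h1 : ∀ v : FinitePlace K, v y ≤ mf x v ^ n)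
    (h2 : ∀ w : InfinitePlace K, w y ≤ C * mi x w ^ n) :
    {v : FinitePlace K | v y < mf x v ^ n}.Finite ∧
    ∏ᶠ v, pr {v : FinitePlace K | v y < mf x v ^ n} v ≤
      C ^ Module.finrank ℚ K * mulHeight x ^ n := by
  have hfy : HasFiniteMulSupport (fun v : FinitePlace K => v y) := FinitePlace.hasFiniteMulSupport hy
  have hfx : HasFiniteMulSupport (fun v : FinitePlace K => mf x v ^ n) := by
    refine (mf_fin hx).subset fun v hv => ?_
    rw [mem_mulSupport] at hv ⊢
    intro h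
    apply hv
    rw [h, one_pow]
  have hfin : {v : FinitePlace K | v y < mf x v ^ n}.Finite := by
    refine (hfx.union hfy).subset fun v hv => ?_
    by_contra h
    rw [Set.mem_union, not_or, mem_mulSupport, mem_mulSupport, not_not, not_not] at h
    rw [Set.mem_ofPred_eq, h.1, h.2] at hv
    exact lt_irrefl _ hv
  refine ⟨hfin, ?_⟩
  have hpt : ∀ v : FinitePlace K, pr {v : FinitePlace K | v y < mf x v ^ n} v ≤
      mf x v ^ n / v y := by
    intro v
    have hv0 : 0 < v y := FinitePlace.pos_iff.2 hy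
    unfold pr
    split_ifs with h
    · rw [le_div_iff₀ hv0]
      obtain ⟨i, hi⟩ := mf_attained x v
      rw [Set.mem_ofPred_eq, hi, ← map_pow] at h
      rw [hi, ← map_pow]
      exact gap v hy (pow_ne_zero n (hx i)) h
    · rw [le_div_iff₀ hv0, one_mul]
      exact h1 v
  have hle : ∏ᶠ v, pr {v : FinitePlace K | v y < mf x v ^ n} v ≤
      ∏ᶠ v : FinitePlace K, mf x v ^ n / v y :=
    finprod_le_finprod (pr_fin hfin) (fun v => zero_le_one.trans (one_le_pr _ v))
    (hfx.div hfy) hpt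
  refine hle.trans ?_
  have hpf : ∏ᶠ v : FinitePlace K, v y = (∏ w : InfinitePlace K, w y ^ w.mult)⁻¹ :=
    eq_inv_of_mul_eq_one_right (NumberField.prod_abs_eq_one hy)
  rw [finprod_div_distrib hfx hfy, hpf, div_inv_eq_mul,
    height_eq hx, mul_comm (∏ᶠ v, mf x v ^ n), mul_pow, ← finprod_pow (mf_fin hx), ← mul_assoc]
  have hmf : 0 ≤ (∏ᶠ v, mf x v) ^ n := pow_nonneg (finprod_nonneg fun v => (mf_pos hx v).le) n
  refine mul_le_mul_of_nonneg_right ?_ hmf
  rw [← InfinitePlace.sum_mult_eq, ← Finset.prod_pow_eq_pow_sum, ← Finset.prod_pow,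
    ← Finset.prod_mul_distrib]
  refine Finset.prod_le_prod (fun w _ => by positivity) fun w _ => ?_
  rw [← pow_mul, mul_comm w.mult n, pow_mul, ← mul_pow]
  exact pow_le_pow_left₀ (by positivity) (h2 w) _

/-- the product over the primes in a set -/
noncomputable def PP (T : Set (FinitePlace K)) : ℝ := ∏ᶠ v, pr T v

lemma one_le_PP (T : Set (FinitePlace K)) : 1 ≤ PP T := one_le_finprod fun v => one_le_pr _ v

lemma PP_union {A B T : Set (FinitePlace K)} (hA : A.Finite) (hB : B.Finite) (h : T ⊆ A ∪ B) :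
    PP T ≤ PP A * PP B := by
  have hT : T.Finite := (hA.union hB).subset h
  unfold PP
  have e1 := finprod_mul_distrib (pr_fin hA) (pr_fin hB)
  rw [← e1]
  refine finprod_le_finprod (pr_fin hT) (fun v => zero_le_one.trans (one_le_pr _ v))
    ((pr_fin hA).mul (pr_fin hB)) fun v => ?_
  have g1 := one_le_pr A v
  have g2 := one_le_pr B v
  by_cases hv : v ∈ T
  · have e : pr T v = N v := if_pos hv
    rw [e]
    have hN : 0 ≤ N v := by linarith [one_lt_N v]
    rcases h hv with hv' | hv'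
    · have : pr A v = N v := if_pos hv'
      rw [this]
      exact le_mul_of_one_le_right hN g2
    · have : pr B v = N v := if_pos hv'
      rw [this]
      exact le_mul_of_one_le_left hN g1
  · have e : pr T v = 1 := if_neg hv
    rw [e]
    exact one_le_mul_of_one_le_of_one_le g1 g2

lemma PP_log {A B T : Set (FinitePlace K)} (hA : A.Finite) (hB : B.Finite) (h : T ⊆ A ∪ B) :
    Real.log (PP T) ≤ Real.log (PP A) + Real.log (PP B) := by
  have h1 := one_le_PP A
  have h2 := one_le_PP B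
  have h3 := one_le_PP T
  have := Real.log_le_log (by linarith) (PP_union hA hB h)
  rwa [Real.log_mul (by linarith) (by linarith)] at this

lemma rd_eq (x : Fin 3 → K) : rd x = Real.log (PP (D x)) := rfl

/-- maps of degree `n` which are unramified outside the cusps -/
def Good (f : (Fin 3 → K) → Fin 3 → K) (n : ℕ) : Prop :=
  ∃ C : ℝ, 0 ≤ C ∧ ∀ x : Fin 3 → K, TT x → logHeight x ≤ C ∨
    (TT (f x) ∧ n * logHeight x ≤ logHeight (f x) + C ∧ logHeight (f x) ≤ n * logHeight x + C ∧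
      rd (f x) ≤ rd x + (n - 1) * logHeight x + C)

theorem Good.comp {f g : (Fin 3 → K) → Fin 3 → K} {n m : ℕ} (hn : 1 ≤ n) (hm : 1 ≤ m)
    (hf : Good f n) (hg : Good g m) : Good (g ∘ f) (n * m) := by
  obtain ⟨C, hC, hf⟩ := hf
  obtain ⟨B, hB, hg⟩ := hg
  have hnr : (1 : ℝ) ≤ n := by exact_mod_cast hn
  have hmr : (1 : ℝ) ≤ m := by exact_mod_cast hm
  refine ⟨(m + 1) * C + B, by positivity, fun x hx => ?_⟩
  have hh := logHeight_nonneg x
  rcases hf x hx with h | ⟨h1, h2, h3, h4⟩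
  · left
    nlinarith
  rcases hg (f x) h1 with h | ⟨k1, k2, k3, k4⟩
  · left
    nlinarith
  right
  refine ⟨k1, ?_, ?_, ?_⟩
  · show ((n * m : ℕ) : ℝ) * logHeight x ≤ logHeight (g (f x)) + _
    push_cast
    nlinarith
  · show logHeight (g (f x)) ≤ ((n * m : ℕ) : ℝ) * logHeight x + _
    push_cast
    nlinarith
  · show rd (g (f x)) ≤ rd x + (((n * m : ℕ) : ℝ) - 1) * logHeight x + _
    push_cast
    nlinarith

/-- **The transfer of the abc inequality** -/
theorem transfer {Q Q' : (Fin 3 → K) → Prop} (hQ : ∀ x, Q x → TT x) (M : ℕ)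
    (f : ℕ → (Fin 3 → K) → Fin 3 → K) (n : ℕ → ℕ) (hn : ∀ m, 1 ≤ m → 1 ≤ n m)
    (hf : ∀ m, 1 ≤ m → Good (f m) (n m))
    (h : ∀ x, Q x → ∃ m, 1 ≤ m ∧ m ≤ M ∧ (TT (f m x) → Q' (f m x)))
    (habc : ABCfor Q') : ABCfor Q := by
  intro ε hε
  have key : ∀ m, 1 ≤ m → ∃ C : ℝ, ∀ x : Fin 3 → K, TT x → (TT (f m x) → Q' (f m x)) →
      logHeight x ≤ (1 + ε) * rd x + C := by
    intro m hm
    obtain ⟨B, hB, hg⟩ := hf m hm
    obtain ⟨k, hk⟩ : ∃ k : ℝ, k = (n m : ℝ) - 1 := ⟨_, rfl⟩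
    have hk0 : 0 ≤ k := by
      rw [hk]
      have : (1 : ℝ) ≤ n m := by exact_mod_cast hn m hm
      linarith
    obtain ⟨δ, hδ⟩ : ∃ δ : ℝ, δ = ε / (1 + k * (1 + ε)) := ⟨_, rfl⟩
    have hd : 0 < 1 + k * (1 + ε) := by positivity
    have hδ0 : 0 < δ := by rw [hδ]; positivity
    have hδ2 : (1 + δ) = (1 + ε) * (1 - k * δ) := by
      rw [hδ]
      field_simp
      ring
    have hδ1 : 0 < 1 - k * δ := by
      by_contra hcon
      push Not at hcon
      nlinarith
    obtain ⟨A, hA⟩ := habc δ hδ0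
    obtain ⟨E, hE⟩ : ∃ E : ℝ, E = (A + B + (1 + δ) * B) / (1 - k * δ) := ⟨_, rfl⟩
    refine ⟨max E B, fun x hx hx' => ?_⟩
    have hr := rd_nonneg x
    rcases hg x hx with h0 | ⟨h1, h2, h3, h4⟩
    · have := le_max_right E B
      have h5 : 0 ≤ (1 + ε) * rd x := by positivity
      linarith
    · have h5 := hA (f m x) (hx' h1)
      have h6 : (1 + δ) * rd (f m x) ≤ (1 + δ) * (rd x + k * logHeight x + B) := by
        rw [hk]
        gcongr
      have h7 : (n m : ℝ) = k + 1 := by rw [hk]; ring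
      rw [h7] at h2
      have h8 : (1 - k * δ) * logHeight x ≤ (1 - k * δ) * ((1 + ε) * rd x + E) := by
        have e1 : (1 - k * δ) * E = A + B + (1 + δ) * B := by
          rw [hE]
          field_simp
        have e2 : (1 - k * δ) * ((1 + ε) * rd x + E) = (1 + δ) * rd x + (1 - k * δ) * E := by
          rw [hδ2]
          ring
        rw [e2, e1]
        nlinarith
      have h9 := le_of_mul_le_mul_left h8 hδ1
      exact h9.trans (by gcongr; exact le_max_left _ _)
  choose! C hC using key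
  refine ⟨∑ m ∈ Finset.Icc 1 M, |C m|, fun x hx => ?_⟩
  obtain ⟨m, h1, h2, h3⟩ := h x hx
  have h4 := hC m h1 x (hQ x hx) h3
  have h5 : |C m| ≤ ∑ m ∈ Finset.Icc 1 M, |C m| :=
    Finset.single_le_sum (f := fun m => |C m|) (fun i _ => abs_nonneg _)
      (Finset.mem_Icc.2 ⟨h1, h2⟩)
  have h6 := le_abs_self (C m)
  linarith

end Q265.NF
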