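import Pool.Agent.Q265.NF.A

/-! # The basic maps: powers and two quadratic maps -/

set_option autoImplicit false

open NumberField Height Function

namespace Q265.NF

open Q241.AK

variable {K : Type*} [Field K] [NumberField K]

/-- `t ↦ t ^ m` in the coordinate `t = -a / c` -/
def pw (m : ℕ) (x : Fin 3 → K) : Fin 3 → K := ![x 0 ^ m, (-x 2) ^ m - x 0 ^ m, -(-x 2) ^ m]

/-- `t ↦ 4 t (1 - t)` -/
def q1 (x : Fin 3 → K) : Fin 3 → K := ![4 * x 0 * x 1, (x 0 - x 1) ^ 2, -x 2 ^ 2]

/-- `t ↦ 4 t / (1 + t) ^ 2` -/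
def q2 (x : Fin 3 → K) : Fin 3 → K := ![4 * x 0 * x 2, -x 1 ^ 2, (x 2 - x 0) ^ 2]

lemma fneg (v : FinitePlace K) (x : K) : v (-x) = v x := v.val.map_neg x

omit [NumberField K] in
lemma ineg (w : InfinitePlace K) (x : K) : w (-x) = w x := w.val.map_neg x

lemma fsub (v : FinitePlace K) (x y : K) : v (x - y) ≤ max (v x) (v y) := by
  have := FinitePlace.add_le v x (-y)
  rwa [fneg, ← sub_eq_add_neg] at this

omit [NumberField K] in
lemma isub (w : InfinitePlace K) (x y : K) : w (x - y) ≤ w x + w y := by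
  have := w.val.add_le x (-y)
  rw [w.val.map_neg, ← sub_eq_add_neg] at this
  exact this

omit [NumberField K] in
lemma iadd (w : InfinitePlace K) (x y : K) : w (x + y) ≤ w x + w y := w.val.add_le x y

lemma mf_pow {x : Fin 3 → K} (m : ℕ) (v : FinitePlace K) :
    mf (x ^ m) v = mf x v ^ m := by
  refine le_antisymm (mf_le fun i => ?_) ?_
  · rw [Pi.pow_apply, map_pow]
    exact pow_le_pow_left₀ (by positivity) (le_mf x v i) m
  · obtain ⟨i, hi⟩ := mf_attained x v
    rw [hi, ← map_pow]
    exact le_mf (x ^ m) v i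

omit [NumberField K] in
lemma mi_pow {x : Fin 3 → K} (m : ℕ) (w : InfinitePlace K) :
    mi (x ^ m) w = mi x w ^ m := by
  refine le_antisymm (mi_le fun i => ?_) ?_
  · rw [Pi.pow_apply, map_pow]
    exact pow_le_pow_left₀ (by positivity) (le_mi x w i) m
  · obtain ⟨i, hi⟩ := mi_attained x w
    rw [hi, ← map_pow]
    exact le_mi (x ^ m) w i

omit [NumberField K] in
lemma pow_ne {x : Fin 3 → K} (hx : ∀ i, x i ≠ 0) (m : ℕ) : ∀ i, (x ^ m) i ≠ 0 :=
  fun i => pow_ne_zero m (hx i)

omit [NumberField K] in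
lemma geom_le (w : InfinitePlace K) (a b : K) (B : ℝ) (ha : w a ≤ B) (hb : w b ≤ B) (m : ℕ) :
    w (∑ i ∈ Finset.range m, a ^ i * b ^ (m - 1 - i)) ≤ m * B ^ (m - 1) := by
  have h1 : w (∑ i ∈ Finset.range m, a ^ i * b ^ (m - 1 - i)) ≤
      ∑ i ∈ Finset.range m, w (a ^ i * b ^ (m - 1 - i)) :=
    IsAbsoluteValue.abv_sum w.val _ _
  refine h1.trans ?_
  have h2 : ∀ i ∈ Finset.range m, w (a ^ i * b ^ (m - 1 - i)) ≤ B ^ (m - 1) := by
    intro i hi
    rw [Finset.mem_range] at hi
    rw [map_mul, map_pow, map_pow]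
    have hB : 0 ≤ B := (apply_nonneg w a).trans ha
    calc w a ^ i * w b ^ (m - 1 - i) ≤ B ^ i * B ^ (m - 1 - i) := by gcongr
      _ = B ^ (m - 1) := by rw [← pow_add]; congr 1; omega
  refine (Finset.sum_le_sum h2).trans ?_
  rw [Finset.sum_const, Finset.card_range, nsmul_eq_mul]

lemma fgeom_le (v : FinitePlace K) (a b : K) (B : ℝ) (ha : v a ≤ B) (hb : v b ≤ B) (m : ℕ)
    (hm : 1 ≤ m) :
    v (∑ i ∈ Finset.range m, a ^ i * b ^ (m - 1 - i)) ≤ B ^ (m - 1) := by
  have hB : 0 ≤ B := (apply_nonneg v a).trans ha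
  have h2 : ∀ i ∈ Finset.range m, v (a ^ i * b ^ (m - 1 - i)) ≤ B ^ (m - 1) := by
    intro i hi
    rw [Finset.mem_range] at hi
    rw [map_mul, map_pow, map_pow]
    calc v a ^ i * v b ^ (m - 1 - i) ≤ B ^ i * B ^ (m - 1 - i) := by gcongr
      _ = B ^ (m - 1) := by rw [← pow_add]; congr 1; omega
  have gen : ∀ s : Finset ℕ, s ⊆ Finset.range m →
      v (∑ i ∈ s, a ^ i * b ^ (m - 1 - i)) ≤ B ^ (m - 1) := by
    intro s
    classical
    induction s using Finset.induction_on with
    | empty =>
      intro _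
      rw [Finset.sum_empty, map_zero]
      positivity
    | insert j s hj ih =>
      intro hs
      rw [Finset.sum_insert hj]
      refine (FinitePlace.add_le v _ _).trans (max_le (h2 j (hs (Finset.mem_insert_self j s))) ?_)
      exact ih fun i hi => hs (Finset.mem_insert_of_mem hi)
  exact gen _ subset_rfl

theorem good_pw (m : ℕ) (hm : 1 ≤ m) : Good (K := K) (pw m) m := by
  obtain ⟨d, hd⟩ : ∃ d : ℝ, d = (Module.finrank ℚ K : ℝ) := ⟨_, rfl⟩
  have hd0 : 0 ≤ d := by rw [hd]; positivity
  have hm0 : (1 : ℝ) ≤ m := by exact_mod_cast hm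
  have hl2 : 0 ≤ Real.log 2 := Real.log_nonneg (by norm_num)
  have hlm : 0 ≤ Real.log m := Real.log_nonneg hm0
  refine ⟨d * (m * Real.log 2) + d * Real.log 2 + d * Real.log m, by positivity, fun x hx => ?_⟩
  obtain ⟨hs, hx0⟩ := hx
  have hx1 : x 1 = -x 2 - x 0 := by linear_combination hs
  by_cases hdeg : (-x 2) ^ m = x 0 ^ m
  · left
    have hv : ∀ v : FinitePlace K, v (x 2) = v (x 0) := by
      intro v
      have : v (-x 2) ^ m = v (x 0) ^ m := by rw [← map_pow, ← map_pow, hdeg]
      rw [fneg] at this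
      exact (pow_left_inj₀ (by positivity) (by positivity) (by omega)).1 this
    have hw : ∀ w : InfinitePlace K, w (x 2) = w (x 0) := by
      intro w
      have : w (-x 2) ^ m = w (x 0) ^ m := by rw [← map_pow, ← map_pow, hdeg]
      rw [ineg] at this
      exact (pow_left_inj₀ (by positivity) (by positivity) (by omega)).1 this
    have h := bounded (x := x) hx0 (C := 2) (by norm_num) (hx0 0) ?_ ?_
    · rw [← hd] at h
      have : 0 ≤ d * (m * Real.log 2) + d * Real.log m := by positivity
      linarith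
    · intro v i
      fin_cases i
      · exact le_rfl
      · show v (x 1) ≤ v (x 0)
        rw [hx1]
        refine (fsub v _ _).trans (max_le ?_ le_rfl)
        rw [fneg, hv]
      · exact (hv v).le
    · intro w i
      have : 0 ≤ w (x 0) := by positivity
      fin_cases i
      · show w (x 0) ≤ 2 * w (x 0)
        linarith
      · show w (x 1) ≤ 2 * w (x 0)
        rw [hx1]
        refine (isub w _ _).trans ?_
        rw [ineg, hw]
        linarith
      · show w (x 2) ≤ 2 * w (x 0)
        rw [hw]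
        linarith
  right
  have hne : (-x 2) ^ m - x 0 ^ m ≠ 0 := sub_ne_zero.2 hdeg
  have hy0 : ∀ i, pw m x i ≠ 0 := by
    intro i
    fin_cases i
    · exact pow_ne_zero m (hx0 0)
    · exact hne
    · exact neg_ne_zero.2 (pow_ne_zero m (neg_ne_zero.2 (hx0 2)))
  have hp := pow_ne hx0 m
  have hlogp : logHeight (x ^ m) = m * logHeight x := logHeight_pow x m
  have fv2 : ∀ v : FinitePlace K, v (-(-x 2) ^ m) = v (x 2) ^ m := by
    intro v
    rw [fneg, map_pow, fneg]
  have iv2 : ∀ w : InfinitePlace K, w (-(-x 2) ^ m) = w (x 2) ^ m := by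
    intro w
    rw [ineg, map_pow, ineg]
  refine ⟨⟨?_, hy0⟩, ?_, ?_, ?_⟩
  · show x 0 ^ m + ((-x 2) ^ m - x 0 ^ m) + -(-x 2) ^ m = 0
    ring
  · -- lower bound
    have h := log_loc_le hp hy0 (C := 2 ^ m) (one_le_pow₀ (by norm_num)) ?_ ?_
    · rw [hlogp, Real.log_pow, ← hd] at h
      have : 0 ≤ d * Real.log 2 + d * Real.log m := by positivity
      linarith
    · intro v
      rw [mf_pow]
      have g0 : v (x 0) ^ m ≤ mf (pw m x) v := by
        rw [← map_pow]
        exact le_mf (pw m x) v 0
      have g2 : v (x 2) ^ m ≤ mf (pw m x) v := by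
        rw [← fv2]
        exact le_mf (pw m x) v 2
      obtain ⟨i, hi⟩ := mf_attained x v
      rw [hi]
      fin_cases i
      · exact g0
      · show v (x 1) ^ m ≤ _
        have h1 : v (x 1) ≤ max (v (x 2)) (v (x 0)) := by
          rw [hx1]
          have := fsub v (-x 2) (x 0)
          rwa [fneg] at this
        rcases le_total (v (x 2)) (v (x 0)) with h3 | h3
        · rw [max_eq_right h3] at h1
          exact (pow_le_pow_left₀ (by positivity) h1 m).trans g0
        · rw [max_eq_left h3] at h1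
          exact (pow_le_pow_left₀ (by positivity) h1 m).trans g2
      · exact g2
    · intro w
      rw [mi_pow]
      have g0 : w (x 0) ^ m ≤ mi (pw m x) w := by
        rw [← map_pow]
        exact le_mi (pw m x) w 0
      have g2 : w (x 2) ^ m ≤ mi (pw m x) w := by
        rw [← iv2]
        exact le_mi (pw m x) w 2
      have hpos : 0 ≤ mi (pw m x) w := (mi_pos hy0 w).le
      have h2m : (1 : ℝ) ≤ 2 ^ m := one_le_pow₀ (by norm_num)
      obtain ⟨i, hi⟩ := mi_attained x w
      rw [hi]
      fin_cases i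
      · show w (x 0) ^ m ≤ _
        nlinarith
      · show w (x 1) ^ m ≤ _
        have h1 : w (x 1) ≤ w (x 2) + w (x 0) := by
          rw [hx1]
          have := isub w (-x 2) (x 0)
          rwa [ineg] at this
        rcases le_total (w (x 2)) (w (x 0)) with h3 | h3
        · calc w (x 1) ^ m ≤ (2 * w (x 0)) ^ m := pow_le_pow_left₀ (by positivity) (by linarith) m
            _ = 2 ^ m * w (x 0) ^ m := mul_pow _ _ _
            _ ≤ _ := by gcongr
        · calc w (x 1) ^ m ≤ (2 * w (x 2)) ^ m := pow_le_pow_left₀ (by positivity) (by linarith) m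
            _ = 2 ^ m * w (x 2) ^ m := mul_pow _ _ _
            _ ≤ _ := by gcongr
      · show w (x 2) ^ m ≤ _
        nlinarith
  · -- upper bound
    have h := log_loc_le hy0 hp (C := 2) (by norm_num) ?_ ?_
    · rw [hlogp, ← hd] at h
      have : 0 ≤ d * (m * Real.log 2) + d * Real.log m := by positivity
      linarith
    · intro v
      have g0 : v (x 0) ^ m ≤ mf (x ^ m) v := by
        rw [← map_pow]
        exact le_mf (x ^ m) v 0
      have g2 : v (x 2) ^ m ≤ mf (x ^ m) v := by
        rw [← map_pow]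
        exact le_mf (x ^ m) v 2
      refine mf_le fun i => ?_
      fin_cases i
      · show v (x 0 ^ m) ≤ _
        rw [map_pow]
        exact g0
      · show v ((-x 2) ^ m - x 0 ^ m) ≤ _
        refine (fsub v _ _).trans (max_le ?_ ?_)
        · rw [map_pow, fneg]
          exact g2
        · rw [map_pow]
          exact g0
      · show v (-(-x 2) ^ m) ≤ _
        rw [fv2]
        exact g2
    · intro w
      have g0 : w (x 0) ^ m ≤ mi (x ^ m) w := by
        rw [← map_pow]
        exact le_mi (x ^ m) w 0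
      have g2 : w (x 2) ^ m ≤ mi (x ^ m) w := by
        rw [← map_pow]
        exact le_mi (x ^ m) w 2
      have hpos : 0 ≤ mi (x ^ m) w := (mi_pos hp w).le
      refine mi_le fun i => ?_
      fin_cases i
      · show w (x 0 ^ m) ≤ _
        rw [map_pow]
        linarith
      · show w ((-x 2) ^ m - x 0 ^ m) ≤ _
        refine (isub w _ _).trans ?_
        rw [map_pow, ineg, map_pow]
        linarith
      · show w (-(-x 2) ^ m) ≤ _
        rw [iv2]
        linarith
  · -- the radical
    obtain ⟨Q, hQ⟩ : ∃ Q : K, Q = ∑ i ∈ Finset.range m, (-x 2) ^ i * x 0 ^ (m - 1 - i) := ⟨_, rfl⟩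
    have hQm : x 1 * Q = (-x 2) ^ m - x 0 ^ m := by
      rw [hQ, hx1, mul_comm]
      exact geom_sum₂_mul (-x 2) (x 0) m
    have hQ0 : Q ≠ 0 := by
      rintro rfl
      rw [mul_zero] at hQm
      exact hne hQm.symm
    obtain ⟨hTf, hT⟩ := defect' hx0 hQ0 (m - 1) (C := m) (by positivity)
      (fun v => by
        rw [hQ]
        refine fgeom_le v _ _ _ ?_ (le_mf x v 0) m hm
        rw [fneg]
        exact le_mf x v 2)
      (fun w => by
        rw [hQ]
        refine geom_le w _ _ _ ?_ (le_mi x w 0) m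
        rw [ineg]
        exact le_mi x w 2)
    have hsub : D (pw m x) ⊆ D x ∪ {v : FinitePlace K | v Q < mf x v ^ (m - 1)} := by
      intro v hv
      by_contra hcon
      rw [Set.mem_union, not_or] at hcon
      obtain ⟨hc1, hc2⟩ := hcon
      have hall : ∀ i j, v (x i) = v (x j) := by
        intro i j
        by_contra hij
        exact hc1 ⟨i, j, hij⟩
      have hmx : ∀ i, v (x i) = mf x v := by
        intro i
        obtain ⟨j, hj⟩ := mf_attained x v
        rw [hj]
        exact hall i j
      have hQv : v Q = mf x v ^ (m - 1) := by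
        rw [Set.mem_ofPred_eq, not_lt] at hc2
        refine le_antisymm ?_ hc2
        rw [hQ]
        refine fgeom_le v _ _ _ ?_ (le_mf x v 0) m hm
        rw [fneg]
        exact le_mf x v 2
      have hval : ∀ i, v (pw m x i) = mf x v ^ m := by
        intro i
        fin_cases i
        · show v (x 0 ^ m) = _
          rw [map_pow, hmx]
        · show v ((-x 2) ^ m - x 0 ^ m) = _
          rw [← hQm, map_mul, hQv, hmx, ← pow_succ']
          congr 1
          omega
        · show v (-(-x 2) ^ m) = _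
          rw [fv2, hmx]
      obtain ⟨i, j, hij⟩ := hv
      exact hij (by rw [hval i, hval j])
    have h1 := PP_log (D_fin hx0) hTf hsub
    rw [rd_eq, rd_eq]
    have h2 : Real.log (PP {v : FinitePlace K | v Q < mf x v ^ (m - 1)}) ≤
        d * Real.log m + (m - 1) * logHeight x := by
      have h3 := Real.log_le_log (lt_of_lt_of_le one_pos (one_le_PP _)) hT
      have hH := mulHeight_pos x
      rw [Real.log_mul (by positivity) (by positivity), Real.log_pow, Real.log_pow, ← hd,
        ← logHeight_eq_log_mulHeight] at h3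
      push_cast [Nat.cast_sub hm] at h3
      exact h3
    have : 0 ≤ d * (m * Real.log 2) + d * Real.log 2 := by positivity
    linarith

end Q265.NF
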