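import Pool.Agent.Q265.NF.B

/-! # The quadratic maps -/

set_option autoImplicit false

open NumberField Height Function

namespace Q265.NF

open Q241.AK

variable {K : Type*} [Field K] [NumberField K]

/-- exchange of two coordinates -/
def sw (x : Fin 3 → K) : Fin 3 → K := ![x 0, x 2, x 1]

lemma sw_height (x : Fin 3 → K) : logHeight (sw x) = logHeight x := by
  have h : sw x = x ∘ (Equiv.swap (1 : Fin 3) 2) := by
    funext i
    fin_cases i
    · show x 0 = x (Equiv.swap (1 : Fin 3) 2 0)
      congr 1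
    · show x 2 = x (Equiv.swap (1 : Fin 3) 2 1)
      rw [Equiv.swap_apply_left]
    · show x 1 = x (Equiv.swap (1 : Fin 3) 2 2)
      rw [Equiv.swap_apply_right]
  rw [h]
  exact logHeight_comp_equiv _ x

lemma sw_D (x : Fin 3 → K) : D (sw x) = D x := by
  have hsw : sw (sw x) = x := by
    funext i
    fin_cases i <;> rfl
  have key : ∀ y : Fin 3 → K, D (sw y) ⊆ D y := by
    intro y v hv
    by_contra hcon
    have hall : ∀ i j, v (y i) = v (y j) := by
      intro i j
      by_contra hij
      exact hcon ⟨i, j, hij⟩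
    obtain ⟨i, j, hij⟩ := hv
    have h0 : ∀ i, v (sw y i) = v (y 0) := by
      intro i
      fin_cases i
      · rfl
      · exact hall 2 0
      · exact hall 1 0
    exact hij (by rw [h0 i, h0 j])
  refine Set.Subset.antisymm (key x) ?_
  have := key (sw x)
  rwa [hsw] at this

omit [NumberField K] in
lemma sw_TT {x : Fin 3 → K} (hx : TT x) : TT (sw x) := by
  obtain ⟨h1, h2⟩ := hx
  refine ⟨?_, fun i => ?_⟩
  · show x 0 + x 2 + x 1 = 0
    linear_combination h1
  · fin_cases i
    · exact h2 0
    · exact h2 2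
    · exact h2 1

theorem good_sw : Good (K := K) sw 1 := by
  refine ⟨0, le_rfl, fun x hx => Or.inr ⟨sw_TT hx, ?_, ?_, ?_⟩⟩
  · rw [sw_height]
    push_cast
    linarith
  · rw [sw_height]
    push_cast
    linarith
  · rw [rd_eq, rd_eq, sw_D]
    push_cast
    linarith

/-- `t ↦ 4 t (1 - t)` -/
def qq1 (x : Fin 3 → K) : Fin 3 → K := ![4 * x 0 * x 1, (x 0 - x 1) ^ 2, -x 2 ^ 2]

lemma v2_le (v : FinitePlace K) : v (2 : K) ≤ 1 := by
  have := FinitePlace.add_le v (1 : K) 1
  rwa [map_one, max_self, one_add_one_eq_two] at this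

omit [NumberField K] in
lemma w2_le (w : InfinitePlace K) : w (2 : K) ≤ 2 := by
  have := iadd w (1 : K) 1
  rw [map_one, one_add_one_eq_two, one_add_one_eq_two] at this
  exact this

lemma v4 (v : FinitePlace K) : v (4 : K) = v 2 ^ 2 := by
  rw [← map_pow]
  congr 1
  norm_num

omit [NumberField K] in
lemma w4 (w : InfinitePlace K) : w (4 : K) = w 2 ^ 2 := by
  rw [← map_pow]
  congr 1
  norm_num

theorem good_qq1 : Good (K := K) qq1 2 := by
  obtain ⟨d, hd⟩ : ∃ d : ℝ, d = (Module.finrank ℚ K : ℝ) := ⟨_, rfl⟩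
  have hd0 : 0 ≤ d := by rw [hd]; positivity
  have hl2 : 0 ≤ Real.log 2 := Real.log_nonneg (by norm_num)
  have hl4 : 0 ≤ Real.log 4 := Real.log_nonneg (by norm_num)
  refine ⟨2 * (d * Real.log 2) + d * Real.log 4, by positivity, fun x hx => ?_⟩
  obtain ⟨hs, hx0⟩ := hx
  have hx2 : x 2 = -x 0 - x 1 := by linear_combination hs
  by_cases hdeg : x 0 = x 1
  · left
    have hx2' : x 2 = -(2 * x 0) := by rw [hx2, ← hdeg]; ring
    have h := bounded (x := x) hx0 (C := 2) (by norm_num) (hx0 0) ?_ ?_
    · rw [← hd] at h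
      have : 0 ≤ d * Real.log 2 + d * Real.log 4 := by positivity
      linarith
    · intro v i
      fin_cases i
      · exact le_rfl
      · exact (congrArg v hdeg).symm.le
      · show v (x 2) ≤ v (x 0)
        rw [hx2', fneg, map_mul]
        exact mul_le_of_le_one_left (by positivity) (v2_le v)
    · intro w i
      have : 0 ≤ w (x 0) := by positivity
      fin_cases i
      · show w (x 0) ≤ 2 * w (x 0)
        linarith
      · show w (x 1) ≤ 2 * w (x 0)
        rw [← hdeg]
        linarith
      · show w (x 2) ≤ 2 * w (x 0)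
        rw [hx2', ineg, map_mul]
        exact mul_le_mul_of_nonneg_right (w2_le w) this
  right
  have hne : x 0 - x 1 ≠ 0 := sub_ne_zero.2 hdeg
  have h40 : (4 : K) ≠ 0 := by norm_num
  have hy0 : ∀ i, qq1 x i ≠ 0 := by
    intro i
    fin_cases i
    · exact mul_ne_zero (mul_ne_zero h40 (hx0 0)) (hx0 1)
    · exact pow_ne_zero 2 hne
    · exact neg_ne_zero.2 (pow_ne_zero 2 (hx0 2))
  have hp := pow_ne hx0 2
  have hlogp : logHeight (x ^ 2) = 2 * logHeight x := by
    rw [logHeight_pow x 2]
    norm_num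
  have fv2 : ∀ v : FinitePlace K, v (-x 2 ^ 2) = v (x 2) ^ 2 := by
    intro v
    rw [fneg, map_pow]
  have iv2 : ∀ w : InfinitePlace K, w (-x 2 ^ 2) = w (x 2) ^ 2 := by
    intro w
    rw [ineg, map_pow]
  refine ⟨⟨?_, hy0⟩, ?_, ?_, ?_⟩
  · show 4 * x 0 * x 1 + (x 0 - x 1) ^ 2 + -x 2 ^ 2 = 0
    rw [hx2]
    ring
  · -- lower bound
    obtain ⟨z, hz⟩ : ∃ z : Fin 3 → K, z = (4 : K) • x ^ 2 := ⟨_, rfl⟩
    have hzi : ∀ i, z i = 4 * x i ^ 2 := by
      intro i
      rw [hz]
      rfl
    have hz0 : ∀ i, z i ≠ 0 := by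
      intro i
      rw [hzi]
      exact mul_ne_zero h40 (pow_ne_zero 2 (hx0 i))
    have hzh : logHeight z = 2 * logHeight x := by
      rw [hz, logHeight_smul_eq_logHeight _ h40, hlogp]
    have h := log_loc_le hz0 hy0 (C := 4) (by norm_num) ?_ ?_
    · rw [hzh, ← hd] at h
      have : 0 ≤ 2 * (d * Real.log 2) := by positivity
      push_cast
      linarith
    · intro v
      have g1 : v (x 0 - x 1) ^ 2 ≤ mf (qq1 x) v := by
        rw [← map_pow]
        exact le_mf (qq1 x) v 1
      have g2 : v (x 2) ^ 2 ≤ mf (qq1 x) v := by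
        rw [← fv2]
        exact le_mf (qq1 x) v 2
      have hmax : ∀ y : K, v y ≤ max (v (x 0 - x 1)) (v (x 2)) → v y ^ 2 ≤ mf (qq1 x) v := by
        intro y hy
        rcases le_total (v (x 0 - x 1)) (v (x 2)) with h3 | h3
        · rw [max_eq_right h3] at hy
          exact (pow_le_pow_left₀ (by positivity) hy 2).trans g2
        · rw [max_eq_left h3] at hy
          exact (pow_le_pow_left₀ (by positivity) hy 2).trans g1
      refine mf_le fun i => ?_
      rw [hzi, show (4 : K) * x i ^ 2 = (2 * x i) ^ 2 by ring, map_pow]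
      apply hmax
      fin_cases i
      · show v (2 * x 0) ≤ _
        rw [show 2 * x 0 = (x 0 - x 1) - x 2 by rw [hx2]; ring]
        exact fsub v _ _
      · show v (2 * x 1) ≤ _
        rw [show 2 * x 1 = -(x 0 - x 1) - x 2 by rw [hx2]; ring]
        have := fsub v (-(x 0 - x 1)) (x 2)
        rwa [fneg] at this
      · show v (2 * x 2) ≤ _
        rw [map_mul]
        exact (mul_le_of_le_one_left (by positivity) (v2_le v)).trans (le_max_right _ _)
    · intro w
      have g1 : w (x 0 - x 1) ^ 2 ≤ mi (qq1 x) w := by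
        rw [← map_pow]
        exact le_mi (qq1 x) w 1
      have g2 : w (x 2) ^ 2 ≤ mi (qq1 x) w := by
        rw [← iv2]
        exact le_mi (qq1 x) w 2
      have hsum : ∀ y : K, w y ≤ w (x 0 - x 1) + w (x 2) → w y ^ 2 ≤ 4 * mi (qq1 x) w := by
        intro y hy
        have p0 : 0 ≤ w y := by positivity
        nlinarith [sq_nonneg (w (x 0 - x 1) - w (x 2))]
      refine mi_le fun i => ?_
      rw [hzi, show (4 : K) * x i ^ 2 = (2 * x i) ^ 2 by ring, map_pow]
      fin_cases i
      · show w (2 * x 0) ^ 2 ≤ _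
        apply hsum
        rw [show 2 * x 0 = (x 0 - x 1) - x 2 by rw [hx2]; ring]
        exact isub w _ _
      · show w (2 * x 1) ^ 2 ≤ _
        apply hsum
        rw [show 2 * x 1 = -(x 0 - x 1) - x 2 by rw [hx2]; ring]
        have := isub w (-(x 0 - x 1)) (x 2)
        rwa [ineg] at this
      · show w (2 * x 2) ^ 2 ≤ _
        rw [map_mul, mul_pow]
        have h2 := w2_le w
        have h2' : 0 ≤ w (2 : K) := by positivity
        have h3 : w (2 : K) ^ 2 ≤ 4 := by nlinarith
        have h4 : 0 ≤ w (x 2) ^ 2 := by positivity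
        nlinarith
  · -- upper bound
    have h := log_loc_le hy0 hp (C := 4) (by norm_num) ?_ ?_
    · rw [hlogp, ← hd] at h
      have : 0 ≤ 2 * (d * Real.log 2) := by positivity
      push_cast
      linarith
    · intro v
      rw [mf_pow]
      refine mf_le fun i => ?_
      have hM : 0 ≤ mf x v := (mf_pos hx0 v).le
      have g0 := le_mf x v 0
      have g1 := le_mf x v 1
      have g2 := le_mf x v 2
      fin_cases i
      · show v (4 * x 0 * x 1) ≤ _
        rw [map_mul, map_mul, v4]
        have h2 := v2_le v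
        have h2' : 0 ≤ v (2 : K) := by positivity
        have h3 : v (2 : K) ^ 2 ≤ 1 := pow_le_one₀ h2' h2
        calc v (2 : K) ^ 2 * v (x 0) * v (x 1) ≤ 1 * mf x v * mf x v := by gcongr
          _ = _ := by ring
      · show v ((x 0 - x 1) ^ 2) ≤ _
        rw [map_pow]
        exact pow_le_pow_left₀ (by positivity) ((fsub v _ _).trans (max_le g0 g1)) 2
      · show v (-x 2 ^ 2) ≤ _
        rw [fv2]
        exact pow_le_pow_left₀ (by positivity) g2 2
    · intro w
      rw [mi_pow]
      refine mi_le fun i => ?_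
      have hM : 0 ≤ mi x w := (mi_pos hx0 w).le
      have g0 := le_mi x w 0
      have g1 := le_mi x w 1
      have g2 := le_mi x w 2
      fin_cases i
      · show w (4 * x 0 * x 1) ≤ _
        rw [map_mul, map_mul, w4]
        have h2 := w2_le w
        have h2' : 0 ≤ w (2 : K) := by positivity
        have h3 : w (2 : K) ^ 2 ≤ 4 := by nlinarith
        calc w (2 : K) ^ 2 * w (x 0) * w (x 1) ≤ 4 * mi x w * mi x w := by gcongr
          _ = _ := by ring
      · show w ((x 0 - x 1) ^ 2) ≤ _
        rw [map_pow]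
        have h4 : w (x 0 - x 1) ≤ 2 * mi x w := by
          have := isub w (x 0) (x 1)
          linarith
        calc w (x 0 - x 1) ^ 2 ≤ (2 * mi x w) ^ 2 := pow_le_pow_left₀ (by positivity) h4 2
          _ = _ := by ring
      · show w (-x 2 ^ 2) ≤ _
        rw [iv2]
        have : w (x 2) ^ 2 ≤ mi x w ^ 2 := pow_le_pow_left₀ (by positivity) g2 2
        nlinarith
  · -- the radical
    obtain ⟨hTf, hT⟩ := defect' hx0 hne 1 (C := 2) (by norm_num)
      (fun v => by
        rw [pow_one]
        exact (fsub v _ _).trans (max_le (le_mf x v 0) (le_mf x v 1)))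
      (fun w => by
        rw [pow_one]
        have h1 := isub w (x 0) (x 1)
        have h2 := le_mi x w 0
        have h3 := le_mi x w 1
        linarith)
    obtain ⟨hUf, hU⟩ := defect' hx0 (y := (2 : K)) (by norm_num) 0 (C := 2) (by norm_num)
      (fun v => by
        rw [pow_zero]
        exact v2_le v)
      (fun w => by
        rw [pow_zero, mul_one]
        exact w2_le w)
    obtain ⟨T, hTdef⟩ : ∃ T : Set (FinitePlace K), T =
        {v : FinitePlace K | v (x 0 - x 1) < mf x v ^ 1} := ⟨_, rfl⟩
    obtain ⟨U, hUdef⟩ : ∃ U : Set (FinitePlace K), U =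
        {v : FinitePlace K | v (2 : K) < mf x v ^ 0} := ⟨_, rfl⟩
    rw [← hTdef] at hTf hT
    rw [← hUdef] at hUf hU
    have hsub : D (qq1 x) ⊆ (D x ∪ T) ∪ U := by
      intro v hv
      by_contra hcon
      rw [Set.mem_union, not_or, Set.mem_union, not_or] at hcon
      obtain ⟨⟨hc1, hc2⟩, hc3⟩ := hcon
      have hall : ∀ i j, v (x i) = v (x j) := by
        intro i j
        by_contra hij
        exact hc1 ⟨i, j, hij⟩
      have hmx : ∀ i, v (x i) = mf x v := by
        intro i
        obtain ⟨j, hj⟩ := mf_attained x v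
        rw [hj]
        exact hall i j
      have hQv : v (x 0 - x 1) = mf x v := by
        rw [hTdef, Set.mem_ofPred_eq, not_lt, pow_one] at hc2
        exact le_antisymm ((fsub v _ _).trans (max_le (le_mf x v 0) (le_mf x v 1))) hc2
      have h2v : v (2 : K) = 1 := by
        rw [hUdef, Set.mem_ofPred_eq, not_lt, pow_zero] at hc3
        exact le_antisymm (v2_le v) hc3
      have hval : ∀ i, v (qq1 x i) = mf x v ^ 2 := by
        intro i
        fin_cases i
        · show v (4 * x 0 * x 1) = _
          rw [map_mul, map_mul, v4, h2v, hmx, hmx]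
          ring
        · show v ((x 0 - x 1) ^ 2) = _
          rw [map_pow, hQv]
        · show v (-x 2 ^ 2) = _
          rw [fv2, hmx]
      obtain ⟨i, j, hij⟩ := hv
      exact hij (by rw [hval i, hval j])
    have h1 := PP_log ((D_fin hx0).union hTf) hUf hsub
    have h2 := PP_log (D_fin hx0) hTf (subset_refl (D x ∪ T))
    rw [rd_eq, rd_eq]
    have h3 : Real.log (PP T) ≤ d * Real.log 2 + logHeight x := by
      have h3 := Real.log_le_log (lt_of_lt_of_le one_pos (one_le_PP _)) hT
      have hH := mulHeight_pos x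
      rw [Real.log_mul (by positivity) (by positivity), Real.log_pow, Real.log_pow, ← hd,
        ← logHeight_eq_log_mulHeight] at h3
      push_cast at h3
      linarith
    have h4 : Real.log (PP U) ≤ d * Real.log 2 := by
      have h3 := Real.log_le_log (lt_of_lt_of_le one_pos (one_le_PP _)) hU
      rw [pow_zero, mul_one, Real.log_pow, ← hd] at h3
      exact h3
    have : 0 ≤ d * Real.log 4 := by positivity
    push_cast
    linarith

/-- `t ↦ 4 t / (1 + t) ^ 2` -/
def qq2 (x : Fin 3 → K) : Fin 3 → K := sw (qq1 (sw x))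

theorem good_qq2 : Good (K := K) qq2 2 := by
  have h := (good_sw (K := K)).comp le_rfl (by norm_num) (good_qq1 (K := K))
  have h' := h.comp (by norm_num) le_rfl (good_sw (K := K))
  exact h'

end Q265.NF
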