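import Pool.Agent.Q265.NF.D

/-! # Localisation at a finite set of places -/

set_option autoImplicit false

open NumberField Height Function IsDedekindDomain

namespace Q265.NF

open Q241.AK

variable {K : Type*} [Field K] [NumberField K]

/-- a common radius -/
lemma cusps_all (S : Finset (FinitePlace K)) {δ : ℝ} (hδ : 0 < δ) : ∃ η : ℝ, 0 < η ∧
    (∀ v ∈ S, ∀ x : Fin 3 → K, x 0 + x 1 + x 2 = 0 → (∀ i, x i ≠ 0) → Near η v.val x →
      v (qq2 (qq1 x) 0) < δ * v (qq2 (qq1 x) 2)) ∧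
    (∀ w : InfinitePlace K, ∀ x : Fin 3 → K, x 0 + x 1 + x 2 = 0 → (∀ i, x i ≠ 0) →
      Near η w.val x → w (qq2 (qq1 x) 0) < δ * w (qq2 (qq1 x) 2)) := by
  classical
  choose f hf using fun v : FinitePlace K => cusps v.val hδ
  choose g hg using fun w : InfinitePlace K => cusps w.val hδ
  obtain ⟨w0, hw0⟩ := Finite.exists_min g
  obtain ⟨ηw, hηw⟩ : ∃ η : ℝ, η = g w0 := ⟨_, rfl⟩
  have h1 : 0 < ηw := by
    rw [hηw]
    exact (hg w0).1
  have h2 : ∀ w, ηw ≤ g w := fun w => by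
    rw [hηw]
    exact hw0 w
  have hex : ∃ η : ℝ, 0 < η ∧ ∀ v ∈ S, η ≤ f v := by
    induction S using Finset.induction_on with
    | empty => exact ⟨1, one_pos, fun v hv => absurd hv (Finset.notMem_empty v)⟩
    | insert v S hv ih =>
      obtain ⟨η, h3, h4⟩ := ih
      refine ⟨min η (f v), lt_min h3 (hf v).1, fun u hu => ?_⟩
      rcases Finset.mem_insert.1 hu with rfl | hu
      · exact min_le_right _ _
      · exact (min_le_left _ _).trans (h4 u hu)
  obtain ⟨ηf, h3, h4⟩ := hex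
  refine ⟨min ηf ηw, lt_min h3 h1, fun v hv x a1 a2 a3 => ?_, fun w x a1 a2 a3 => ?_⟩
  · exact (hf v).2 x a1 a2 (a3.mono ((min_le_left _ _).trans (h4 v hv)))
  · exact (hg w).2 x a1 a2 (a3.mono ((min_le_right _ _).trans (h2 w)))

lemma lt_one_half (v : FinitePlace K) {t : K} (h0 : t ≠ 0) (h : v t < 1) : v t ≤ 1 / 2 := by
  have h1 := gap v h0 one_ne_zero (by rwa [map_one])
  rw [map_one] at h1
  have hN : 2 ≤ N v := by
    have := one_lt_N v
    unfold N at this ⊢
    have h2 : 1 < Ideal.absNorm v.maximalIdeal.asIdeal := by exact_mod_cast this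
    exact_mod_cast h2
  have h3 : 0 < v t := FinitePlace.pos_iff.2 h0
  nlinarith

/-- the exponents -/
theorem exponents (S : Finset (FinitePlace K)) {η : ℝ} (hη : 0 < η) : ∃ L M : ℕ, 1 ≤ L ∧
    ∀ t : K, t ≠ 0 → ∃ m : ℕ, 1 ≤ m ∧ m ≤ M ∧
      (∀ v ∈ S, v (t ^ (L * m)) < η ∨ v (t⁻¹ ^ (L * m)) < η ∨ v (t ^ (L * m) - 1) < η) ∧
      (∀ w : InfinitePlace K, w (t ^ (L * m)) < η ∨ w (t⁻¹ ^ (L * m)) < η ∨
        w (t ^ (L * m) - 1) < η ∨ w (t⁻¹ ^ (L * m) - 1) < η) := by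
  classical
  choose f hf using fun v : FinitePlace K => unit_close v hη
  obtain ⟨n0, hn0⟩ := exists_pow_lt_of_lt_one hη (by norm_num : (1 / 2 : ℝ) < 1)
  obtain ⟨L, hL⟩ : ∃ L : ℕ, L = (∏ v ∈ S, f v) * (n0 + 1) := ⟨_, rfl⟩
  have hP : 1 ≤ ∏ v ∈ S, f v := Finset.one_le_prod' fun v _ => (hf v).1
  have hL1 : n0 + 1 ≤ L := by
    rw [hL]
    exact Nat.le_mul_of_pos_left _ hP
  obtain ⟨M, hM⟩ := arch_close (ι := InfinitePlace K) hη
  refine ⟨L, M, by omega, fun t ht => ?_⟩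
  obtain ⟨m, hm1, hm2, hm3⟩ := hM (fun w => if w t ≤ 1 then w.embedding (t ^ L) else
    w.embedding (t⁻¹ ^ L)) (fun w => by
      split_ifs with h
      · rw [InfinitePlace.norm_embedding_eq, map_pow]
        exact pow_le_one₀ (by positivity) h
      · rw [InfinitePlace.norm_embedding_eq, map_pow, map_inv₀]
        push Not at h
        exact pow_le_one₀ (by positivity) (inv_le_one_of_one_le₀ h.le))
  refine ⟨m, hm1, hm2, fun v hv => ?_, fun w => ?_⟩
  · have hdvd : f v ∣ L * m := by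
      rw [hL, mul_assoc]
      exact Dvd.dvd.mul_right (Finset.dvd_prod_of_mem f hv) _
    have hlarge : n0 ≤ L * m := by nlinarith
    have hsmall : ∀ s : K, s ≠ 0 → v s < 1 → v (s ^ (L * m)) < η := by
      intro s hs hs1
      rw [map_pow]
      calc v s ^ (L * m) ≤ (1 / 2) ^ (L * m) :=
            pow_le_pow_left₀ (by positivity) (lt_one_half v hs hs1) _
        _ ≤ (1 / 2) ^ n0 := pow_le_pow_of_le_one (by norm_num) (by norm_num) hlarge
        _ < η := hn0
    rcases lt_trichotomy (v t) 1 with h | h | h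
    · left
      exact hsmall t ht h
    · right
      right
      obtain ⟨j, hj⟩ := hdvd
      rw [hj, pow_mul]
      exact (hf v).2 t h j
    · right
      left
      refine hsmall t⁻¹ (inv_ne_zero ht) ?_
      rw [map_inv₀]
      exact inv_lt_one_of_one_lt₀ h
  · have h1 := hm3 w
    by_cases h : w t ≤ 1
    · rw [if_pos h] at h1
      have e1 : w.embedding (t ^ L) ^ m = w.embedding (t ^ (L * m)) := by
        rw [pow_mul, map_pow w.embedding (t ^ L) m]
      have e2 : w.embedding (t ^ L) ^ m - 1 = w.embedding (t ^ (L * m) - 1) := by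
        rw [e1, map_sub, map_one]
      rw [e2, e1, InfinitePlace.norm_embedding_eq, InfinitePlace.norm_embedding_eq] at h1
      rcases h1 with h1 | h1
      · exact Or.inl h1
      · exact Or.inr (Or.inr (Or.inl h1))
    · rw [if_neg h] at h1
      have e1 : w.embedding (t⁻¹ ^ L) ^ m = w.embedding (t⁻¹ ^ (L * m)) := by
        rw [pow_mul, map_pow w.embedding (t⁻¹ ^ L) m]
      have e2 : w.embedding (t⁻¹ ^ L) ^ m - 1 = w.embedding (t⁻¹ ^ (L * m) - 1) := by
        rw [e1, map_sub, map_one]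
      rw [e2, e1, InfinitePlace.norm_embedding_eq, InfinitePlace.norm_embedding_eq] at h1
      rcases h1 with h1 | h1
      · exact Or.inr (Or.inl h1)
      · exact Or.inr (Or.inr (Or.inr h1))

omit [NumberField K] in
/-- the powers are near the cusps -/
lemma near_pw (a : AbsoluteValue K ℝ) {η : ℝ} {x : Fin 3 → K} (hx : ∀ i, x i ≠ 0) (n : ℕ)
    (h : a ((-x 0 / x 2) ^ n) < η ∨ a ((-x 0 / x 2)⁻¹ ^ n) < η ∨ a ((-x 0 / x 2) ^ n - 1) < η ∨
      a ((-x 0 / x 2)⁻¹ ^ n - 1) < η) : Near η a (pw n x) := by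
  have h0 := hx 0
  have h2 := hx 2
  have p0 : 0 < a (x 0 ^ n) := a.pos (pow_ne_zero n h0)
  have p2 : 0 < a (-(-x 2) ^ n) := by
    apply a.pos
    exact neg_ne_zero.2 (pow_ne_zero n (neg_ne_zero.2 h2))
  have hneg : a (-(-x 2) ^ n) = a ((-x 2) ^ n) := a.map_neg _
  have E1 : x 0 ^ n = (-x 0 / x 2) ^ n * (-x 2) ^ n := by
    rw [← mul_pow]
    congr 1
    field_simp
  have E2 : (-x 2) ^ n = (-x 0 / x 2)⁻¹ ^ n * x 0 ^ n := by
    rw [← mul_pow]
    congr 1
    field_simp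
  unfold Near
  show a (x 0 ^ n) < η * a (-(-x 2) ^ n) ∨ a (-(-x 2) ^ n) < η * a (x 0 ^ n) ∨
    a ((-x 2) ^ n - x 0 ^ n) < η * a (-(-x 2) ^ n) ∨ a ((-x 2) ^ n - x 0 ^ n) < η * a (x 0 ^ n)
  rw [hneg] at p2 ⊢
  rcases h with h | h | h | h
  · left
    calc a (x 0 ^ n) = a ((-x 0 / x 2) ^ n) * a ((-x 2) ^ n) := by rw [← map_mul, ← E1]
      _ < η * a ((-x 2) ^ n) := mul_lt_mul_of_pos_right h p2
  · right
    left
    calc a ((-x 2) ^ n) = a ((-x 0 / x 2)⁻¹ ^ n) * a (x 0 ^ n) := by rw [← map_mul, ← E2]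
      _ < η * a (x 0 ^ n) := mul_lt_mul_of_pos_right h p0
  · right
    right
    left
    have e : (-x 2) ^ n - x 0 ^ n = -(((-x 0 / x 2) ^ n - 1) * (-x 2) ^ n) := by
      rw [sub_mul, ← E1]
      ring
    calc a ((-x 2) ^ n - x 0 ^ n) = a ((-x 0 / x 2) ^ n - 1) * a ((-x 2) ^ n) := by
          rw [e, a.map_neg, map_mul]
      _ < η * a ((-x 2) ^ n) := mul_lt_mul_of_pos_right h p2
  · right
    right
    right
    have e : (-x 2) ^ n - x 0 ^ n = ((-x 0 / x 2)⁻¹ ^ n - 1) * x 0 ^ n := by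
      rw [sub_mul, ← E2]
      ring
    calc a ((-x 2) ^ n - x 0 ^ n) = a ((-x 0 / x 2)⁻¹ ^ n - 1) * a (x 0 ^ n) := by
          rw [e, map_mul]
      _ < η * a (x 0 ^ n) := mul_lt_mul_of_pos_right h p0

/-- the points `(ζ ^ k : 1 - ζ ^ k : -1)` with `ζ` small at the infinite places and in `S` -/
def QS (S : Finset (FinitePlace K)) (δ : ℝ) (k : ℕ) (x : Fin 3 → K) : Prop :=
  TT x ∧ ∃ ζ : K, x 0 = -(ζ ^ k * x 2) ∧ (∀ w : InfinitePlace K, w ζ < δ) ∧ ∀ v ∈ S, v ζ < δ

theorem localise (S : Finset (FinitePlace K)) {δ : ℝ} (hδ : 0 < δ) {k : ℕ} (hk : 1 ≤ k)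
    (h : ABCfor (QS S δ k)) : ABCfor (TT (K := K)) := by
  obtain ⟨η, hη, hS, hI⟩ := cusps_all S hδ
  obtain ⟨L, M, hL, hLM⟩ := exponents S hη
  refine transfer (Q' := QS S δ k) (fun x hx => hx) M
    (fun m => pw k ∘ (qq2 ∘ (qq1 ∘ pw (L * m)))) (fun m => L * m * 2 * 2 * k) ?_ ?_ ?_ h
  · intro m hm
    exact Nat.one_le_iff_ne_zero.2 (by positivity)
  · intro m hm
    have hLm : 1 ≤ L * m := Nat.one_le_iff_ne_zero.2 (by positivity)
    have g1 := (good_pw (K := K) (L * m) hLm).comp hLm (by norm_num) good_qq1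
    have g2 := g1.comp (by omega) (by norm_num) (good_qq2 (K := K))
    exact g2.comp (by omega) hk (good_pw (K := K) k hk)
  · intro x hx
    obtain ⟨hs, hx0⟩ := hx
    have ht : -x 0 / x 2 ≠ 0 := div_ne_zero (neg_ne_zero.2 (hx0 0)) (hx0 2)
    obtain ⟨m, hm1, hm2, hm3, hm4⟩ := hLM _ ht
    refine ⟨m, hm1, hm2, fun hT => ⟨hT, ?_⟩⟩
    have hLm : L * m ≠ 0 := by positivity
    obtain ⟨y, hy⟩ : ∃ y : Fin 3 → K, y = pw (L * m) x := ⟨_, rfl⟩
    obtain ⟨z, hz⟩ : ∃ z : Fin 3 → K, z = qq2 (qq1 y) := ⟨_, rfl⟩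
    have hTz : TT (pw k z) := by
      rw [hz, hy]
      exact hT
    have hz2 : z 2 ≠ 0 := by
      intro h0
      apply hTz.2 2
      show -(-z 2) ^ k = 0
      rw [h0, neg_zero, zero_pow (by omega), neg_zero]
    have hs' : y 0 + y 1 + y 2 = 0 := by
      rw [hy]
      show x 0 ^ (L * m) + ((-x 2) ^ (L * m) - x 0 ^ (L * m)) + -(-x 2) ^ (L * m) = 0
      ring
    have hy0 : ∀ i, y i ≠ 0 := by
      have e0 : z 0 = 4 * (4 * y 0 * y 1) * (-y 2 ^ 2) := by rw [hz]; rfl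
      have hz0 : z 0 ≠ 0 := by
        intro h0
        apply hTz.2 0
        show z 0 ^ k = 0
        rw [h0, zero_pow (by omega)]
      rw [e0] at hz0
      intro i
      fin_cases i
      · intro h0
        apply hz0
        show 4 * (4 * y 0 * y 1) * (-y 2 ^ 2) = 0
        have h0' : y 0 = 0 := h0
        rw [h0']
        ring
      · intro h0
        apply hz0
        have h0' : y 1 = 0 := h0
        rw [h0']
        ring
      · intro h0
        apply hz0
        have h0' : y 2 = 0 := h0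
        rw [h0']
        ring
    have close : ∀ a : AbsoluteValue K ℝ, a (z 0) < δ * a (z 2) → a (-z 0 / z 2) < δ := by
      intro a ha
      rw [map_div₀, a.map_neg, div_lt_iff₀ (a.pos hz2)]
      exact ha
    show ∃ ζ : K, pw k (qq2 (qq1 (pw (L * m) x))) 0 =
        -(ζ ^ k * pw k (qq2 (qq1 (pw (L * m) x))) 2) ∧
        (∀ w : InfinitePlace K, w ζ < δ) ∧ ∀ v ∈ S, v ζ < δ
    rw [← hy, ← hz]
    refine ⟨-z 0 / z 2, ?_, fun w => ?_, fun v hv => ?_⟩
    · show z 0 ^ k = -((-z 0 / z 2) ^ k * -(-z 2) ^ k)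
      rw [mul_neg, neg_neg, ← mul_pow]
      congr 1
      field_simp
    · refine close w.val ?_
      have h1 : Near η w.val y := by
        rw [hy]
        exact near_pw w.val hx0 (L * m) (hm4 w)
      have h2 := hI w y hs' hy0 h1
      rw [← hz] at h2
      exact h2
    · refine close v.val ?_
      have h1 : Near η v.val y := by
        rw [hy]
        refine near_pw v.val hx0 (L * m) ?_
        rcases hm3 v hv with h | h | h
        · exact Or.inl h
        · exact Or.inr (Or.inl h)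
        · exact Or.inr (Or.inr (Or.inl h))
      have h2 := hS v hv y hs' hy0 h1
      rw [← hz] at h2
      exact h2

end Q265.NF
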